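import Mathlib
import Pool.Agent.H46.NE.AK
import Pool.Agent.H46.NE.One

namespace Pool.Agent.Results.MP_fabc18_al.AndrewsCurtisUnstable

open Pool.Agent.H46.NE
open Pool.Agent.H81.Nls (Nielsen)
open FreeGroup (of)

/-- `T a b` is the tuple `(x_i, a_i)`, `(1, b_j)` of `F_n × P`; `AC` is Andrews-Curtis equivalence
of tuples of `P` without stabilization. -/
theorem result :
    -- (1) for every group `P`, Nielsen equivalence in `F_n × P` implies AC equivalence in `P`
    (∀ (P : Type) [Group P] (n k : ℕ) (a a' : Fin n → P) (b b' : Fin k → P),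
      Nielsen (T a b) (T a' b') → AC b b') ∧
    -- (2) and it is equivalent to it when the `a_i` generate `P`
    (∀ (P : Type) [Group P] (n k : ℕ) (a : Fin n → P) (b b' : Fin k → P),
      Subgroup.closure (Set.range a) = ⊤ → (Nielsen (T a b) (T a b') ↔ AC b b')) ∧
    -- (3) every tuple whose first coordinates generate `F_n` is equivalent to some `T a b`
    (∀ (P : Type) [Group P] (n k : ℕ) (g : Fin n ⊕ Fin k → FreeGroup (Fin n) × P),
      Subgroup.closure (Set.range (fun x => (g x).1)) = ⊤ →
        ∃ (a : Fin n → P) (b : Fin k → P), Nielsen g (T a b)) ∧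
    -- (4) in `F_n × F_n`: a standard tuple `T a b` has an AC trivial `b`, and conversely when the
    -- `a_i` generate `F_n`
    (∀ (n : ℕ) (a b : Fin n → FreeGroup (Fin n)), Nielsen (std n) (T a b) → AC of b) ∧
    (∀ (n : ℕ) (a b : Fin n → FreeGroup (Fin n)), Subgroup.closure (Set.range a) = ⊤ →
      (Nielsen (std n) (T a b) ↔ AC of b)) ∧
    -- (5) `T y b` generates `F_n × F_n` exactly when `b` normally generates `F_n`
    (∀ (n : ℕ) (b : Fin n → FreeGroup (Fin n)),
      Subgroup.closure (Set.range (T of b)) = ⊤ ↔ Subgroup.normalClosure (Set.range b) = ⊤) ∧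
    -- (6) Q1 for `n` implies the Andrews-Curtis conjecture without stabilization in rank `n`
    (∀ n : ℕ, (∀ t : Fin n ⊕ Fin n → FreeGroup (Fin n) × FreeGroup (Fin n),
        Subgroup.closure (Set.range t) = ⊤ → Nielsen (std n) t) →
      ∀ b : Fin n → FreeGroup (Fin n), Subgroup.normalClosure (Set.range b) = ⊤ → AC of b) ∧
    -- (7) one-sided stabilization: if some `s` elements generate `P`, then generating tuples `g`,
    -- `g'` of `F_n × P` with normal forms `T a b`, `T a' b'` become equivalent after adding the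
    -- entries `(x_(n+l), 1)`, `l < s`, exactly when `b` and `b'` are AC equivalent
    (∀ (P : Type) [Group P] (n k s : ℕ) (p : Fin s → P), Subgroup.closure (Set.range p) = ⊤ →
      ∀ g g' : Fin n ⊕ Fin k → FreeGroup (Fin n) × P,
        Subgroup.closure (Set.range g) = ⊤ → Subgroup.closure (Set.range g') = ⊤ →
        ∀ (a a' : Fin n → P) (b b' : Fin k → P), Nielsen g (T a b) → Nielsen g' (T a' b') →
          (Nielsen (oneSided s g) (oneSided s g') ↔ AC b b')) ∧
    -- (8) the Andrews-Curtis conjecture without stabilization in rank `n` holds exactly when every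
    -- generating `2n`-tuple of `F_n × F_n` becomes standard in `F_(n+s) × F_n` after adding the
    -- entries `(x_(n+l), 1)`, `l < s` (for one or for every `s ≥ n`)
    (∀ n s : ℕ, n ≤ s →
      ((∀ b : Fin n → FreeGroup (Fin n),
        Subgroup.normalClosure (Set.range b) = ⊤ → AC of b) ↔
      (∀ g : Fin n ⊕ Fin n → FreeGroup (Fin n) × FreeGroup (Fin n),
        Subgroup.closure (Set.range g) = ⊤ → Nielsen (oneSided s (std n)) (oneSided s g)))) ∧
    -- (9) after adding `s` standard pairs: the same criterion with `s` stabilizations, for the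
    -- tuples `T y b` and every `s`, for all generating `T a b` and `s ≥ n`
    (∀ (n s : ℕ) (b : Fin n → FreeGroup (Fin n)),
      Nielsen (std (n + s)) (T (stA s of) (stB s b)) ↔ AC of (stB s b)) ∧
    (∀ (n s : ℕ), n ≤ s → ∀ a b : Fin n → FreeGroup (Fin n),
      Subgroup.closure (Set.range (T a b)) = ⊤ →
        (Nielsen (std (n + s)) (T (stA s a) (stB s b)) ↔ AC of (stB s b))) ∧
    -- (10) the Akbulut-Kirby pairs
    (∀ r : ℕ, Subgroup.closure (Set.range (T of (ak r))) = ⊤ ∧
      (Nielsen (std 2) (T of (ak r)) ↔ AC of (ak r))) := by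
  refine ⟨?_, ?_, ?_, ?_, ?_, ?_, ?_, ?_, ?_, ?_, ?_, ?_⟩
  · intro P _ n k a a' b b' h
    exact ac_of_nielsen h
  · intro P _ n k a b b' ha
    exact nielsen_iff_ac ha
  · intro P _ n k g hg
    exact exists_T g hg
  · intro n a b h
    rw [std_eq] at h
    exact ac_of_nielsen h
  · intro n a b ha
    exact std_iff_ac a b ha
  · intro n b
    exact gen_iff b
  · intro n hQ b hb
    exact ac_of_Q1 hQ b hb
  · intro P _ n k s p hp g g' hg hg' a a' b b' h h'
    exact oneSided_iff_ac s hp hg hg' h h'
  · intro n s hns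
    exact ac_iff_oneSided hns
  · intro n s b
    exact stable_iff_of s b
  · intro n s hns a b h
    exact stable_iff s hns h
  · intro r
    exact ak_thm r

end Pool.Agent.Results.MP_fabc18_al.AndrewsCurtisUnstable
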