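import Mathlib
import Pool.Agent.H46.NE.Poly

namespace Pool.Agent.Results.MP_fabc18_al.PolycyclicQuotients

open Pool.Agent.H46.NE
open Pool.Agent.H81.Nls (Nielsen)
open FreeGroup (of)

/-- `T a b` is the tuple `(x_i, a_i)`, `(1, b_j)` of `F_n × P`; `AC` is Andrews-Curtis equivalence
of tuples of `P` without stabilization; `Series P N ⊥` means that `N` has a finite series of normal
subgroups of `P` whose factors `V / W` are central in `P / W`, or finitely generated abelian groups,
or torsion-free abelian, not all `q`-th powers for some `q`, and without normal subgroups of `P / W`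
of infinite index except `1`. -/
theorem result :
    -- (1) nilpotent groups, and solvable groups in which all subgroups of the commutator subgroup
    -- are finitely generated
    (∀ (P : Type) [Group P], (Group.IsNilpotent P ∨
        (Group.IsSolvable P ∧ ∀ H : Subgroup P, H ≤ commutator P → H.FG)) →
      Series P (commutator P) ⊥) ∧
    -- (2) a homomorphism of `F_n × F_k`, `n ≥ 2`, which maps the second factor onto a group `P`
    -- with such a series from `P'` to `1` does not distinguish the generating tuples of length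
    -- `n + k`
    (∀ (Γ : Type) [Group Γ] (n k : ℕ), 2 ≤ n →
      ∀ f : FreeGroup (Fin n) × FreeGroup (Fin k) →* Γ,
        Series (f.comp (MonoidHom.inr (FreeGroup (Fin n)) (FreeGroup (Fin k)))).range
          (commutator _) ⊥ →
        ∀ g g' : Fin n ⊕ Fin k → FreeGroup (Fin n) × FreeGroup (Fin k),
          Subgroup.closure (Set.range g) = ⊤ → Subgroup.closure (Set.range g') = ⊤ →
          Nielsen (fun x => f (g x)) (fun x => f (g' x))) ∧
    -- (3) the same for every homomorphism to a nilpotent group or to a solvable group all of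
    -- whose subgroups are finitely generated
    (∀ (Γ : Type) [Group Γ], (Group.IsNilpotent Γ ∨
        (Group.IsSolvable Γ ∧ ∀ H : Subgroup Γ, H.FG)) →
      ∀ (n k : ℕ), 2 ≤ n → ∀ f : FreeGroup (Fin n) × FreeGroup (Fin k) →* Γ,
        ∀ g g' : Fin n ⊕ Fin k → FreeGroup (Fin n) × FreeGroup (Fin k),
          Subgroup.closure (Set.range g) = ⊤ → Subgroup.closure (Set.range g') = ⊤ →
          Nielsen (fun x => f (g x)) (fun x => f (g' x))) ∧
    -- (4) the generating tuples of `F_n × P`, compared with `(x_i, 1), (1, y_j)` for a generating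
    -- tuple `y` of `P`
    (∀ (P : Type) [Group P], Series P (commutator P) ⊥ → ∀ n k : ℕ, 2 ≤ n →
      ∀ y : Fin k → P, Subgroup.closure (Set.range y) = ⊤ →
      ∀ (a : Fin n → P) (b : Fin k → P), Subgroup.closure (Set.range (T a b)) = ⊤ →
        (Nielsen (T a b) (T (fun _ => 1) y) ↔
          Nielsen (fun j => Abelianization.of (b j)) (fun j => Abelianization.of (y j))) ∧
        (Nielsen (T a b) (T (fun _ => 1) y) ↔ AC b y)) ∧
    -- (5) the relative form for an arbitrary group `P` and a normal subgroup `N` inside `P'` which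
    -- has such a series
    (∀ (P : Type) [Group P] (N : Subgroup P) [N.Normal], N ≤ commutator P → Series P N ⊥ →
      ∀ n k : ℕ, 2 ≤ n → ∀ y : Fin k → P, Subgroup.closure (Set.range y) = ⊤ →
      ∀ t : Fin n ⊕ Fin k → FreeGroup (Fin n) × P, Subgroup.closure (Set.range t) = ⊤ →
        (Nielsen t (T (fun _ => 1) y) ↔
          Nielsen (fun x => ((t x).1, (QuotientGroup.mk (t x).2 : P ⧸ N)))
            (T (fun _ => 1) (fun j => (QuotientGroup.mk (y j) : P ⧸ N))))) := by
  have h1 : ∀ (P : Type) [Group P], (Group.IsNilpotent P ∨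
        (Group.IsSolvable P ∧ ∀ H : Subgroup P, H ≤ commutator P → H.FG)) →
      Series P (commutator P) ⊥ := by
    intro P _ h
    rcases h with h | ⟨h, h'⟩
    · exact series_of_nilpotent h
    · exact series_of_solvable h h'
  have hne : ∀ n : ℕ, 2 ≤ n → ∃ i1 i2 : Fin n, i1 ≠ i2 := by
    intro n hn
    refine ⟨⟨0, by omega⟩, ⟨1, by omega⟩, ?_⟩
    intro h
    have := congrArg Fin.val h
    simp at this
  have h2 : ∀ (Γ : Type) [Group Γ] (n k : ℕ), 2 ≤ n →
      ∀ f : FreeGroup (Fin n) × FreeGroup (Fin k) →* Γ,
        Series (f.comp (MonoidHom.inr (FreeGroup (Fin n)) (FreeGroup (Fin k)))).range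
          (commutator _) ⊥ →
        ∀ g g' : Fin n ⊕ Fin k → FreeGroup (Fin n) × FreeGroup (Fin k),
          Subgroup.closure (Set.range g) = ⊤ → Subgroup.closure (Set.range g') = ⊤ →
          Nielsen (fun x => f (g x)) (fun x => f (g' x)) := by
    intro Γ _ n k hn f hf g g' hg hg'
    obtain ⟨i1, i2, hi⟩ := hne n hn
    exact nl_trans (series_hom hi f hf hg) (nl_symm (series_hom hi f hf hg'))
  refine ⟨h1, h2, ?_, ?_, ?_⟩
  · intro Γ _ hΓ n k hn f
    refine h2 Γ n k hn f (h1 _ ?_)
    rcases hΓ with h | ⟨h, h'⟩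
    · exact Or.inl inferInstance
    · refine Or.inr ⟨inferInstance, fun H _ => ?_⟩
      exact fg_of_map (Subgroup.subtype_injective _) (h' _)
  · intro P _ hS n k hn y hy a b hg
    obtain ⟨i1, i2, hi⟩ := hne n hn
    exact ⟨⟨fun h => nielsen_of_ac_ab (ac_of_nielsen h), fun h => series_T hi hS hy hg h⟩,
      ⟨fun h => ac_of_nielsen h, fun h => series_T hi hS hy hg (nielsen_of_ac_ab h)⟩⟩
  · intro P _ N _ hN hS n k hn y hy t ht
    obtain ⟨i1, i2, hi⟩ := hne n hn
    have h := series_iff hi hN hS hy ht
    rw [qt_T] at h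
    exact h

end Pool.Agent.Results.MP_fabc18_al.PolycyclicQuotients
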