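import Mathlib
import Pool.Agent.H81.Nls.Special

namespace Pool.Agent.Results.MP_fabc18_al.RedundantEntries

open Pool.Agent.H81.Nls

/-- A generating tuple of `F_p × F_q` which satisfies the condition `Special` (entries
`(u_a, c ^ m_a)` and redundant entries, or a normal form with few nontrivial second coordinates),
or satisfies it after the exchange of the two factors, is Nielsen equivalent to the standard
tuple. -/
theorem result (p q : ℕ) (ι : Type) [Fintype ι] [DecidableEq ι]
    (g : ι → FreeGroup (Fin p) × FreeGroup (Fin q)) (D : Finset ι)
    (hD : Subgroup.closure (g '' {i | i ∉ D}) = ⊤)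
    (h : Special g D ∨ Special (fun i => (g i).swap) D)
    (E : Fin p ⊕ Fin q ↪ ι) : Nielsen (stdTuple E) g :=
  special_all g D hD h E

end Pool.Agent.Results.MP_fabc18_al.RedundantEntries
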