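import Mathlib
import Pool.Agent.H46.NE.Gas

namespace Pool.Agent.Results.MP_fabc18_al.SolvableQuotients

open Pool.Agent.H46.NE
open Pool.Agent.H81.Nls (Nielsen)
open FreeGroup (of)

/-- `T a b` is the tuple `(x_i, a_i)`, `(1, b_j)` of `F_n × P`; `AC` is Andrews-Curtis equivalence
of tuples of `P` without stabilization; `Below P ⊥` means that the commutator subgroup of `P` has a
finite series of normal subgroups of `P` whose factors `V / W` are central in `P / W` or finite
abelian. -/
theorem result :
    -- (1) nilpotent groups, and solvable groups with a finite commutator subgroup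
    (∀ (P : Type) [Group P],
      (Group.IsNilpotent P ∨ (Group.IsSolvable P ∧ Finite (commutator P))) → Below P ⊥) ∧
    -- (2) the generating tuples of `F_n × P`
    (∀ (P : Type) [Group P], Below P ⊥ → ∀ n k : ℕ, 0 < n →
      (∃ y : Fin k → P, Subgroup.closure (Set.range y) = ⊤) →
      -- every generating tuple of length `n + k` is equivalent to `(x_i, 1), (1, z_j)` for some
      -- generating tuple `z` of `P`
      (∀ t : Fin n ⊕ Fin k → FreeGroup (Fin n) × P, Subgroup.closure (Set.range t) = ⊤ →
        ∃ z : Fin k → P, Subgroup.closure (Set.range z) = ⊤ ∧ Nielsen t (T (fun _ => 1) z)) ∧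
      -- two generating tuples are equivalent exactly when the second blocks are Nielsen equivalent
      -- in the abelianization of `P`, exactly when the second blocks are AC equivalent in `P`
      (∀ (a a' : Fin n → P) (b b' : Fin k → P),
        Subgroup.closure (Set.range (T a b)) = ⊤ → Subgroup.closure (Set.range (T a' b')) = ⊤ →
        (Nielsen (T a b) (T a' b') ↔
          Nielsen (fun j => Abelianization.of (b j)) (fun j => Abelianization.of (b' j))) ∧
        (Nielsen (T a b) (T a' b') ↔ AC b b')) ∧
      -- every generating tuple of length `k` of the abelianization lifts to one of `P`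
      (∀ c : Fin k → Abelianization P, Subgroup.closure (Set.range c) = ⊤ →
        ∃ z : Fin k → P, Subgroup.closure (Set.range z) = ⊤ ∧
          ∀ j, Abelianization.of (z j) = c j)) := by
  have h1 : ∀ (P : Type) [Group P],
      (Group.IsNilpotent P ∨ (Group.IsSolvable P ∧ Finite (commutator P))) → Below P ⊥ := by
    intro P _ h
    rcases h with h | ⟨h, h'⟩
    · exact below_of_nilpotent h
    · exact below_of_solvable h h'
  refine ⟨h1, ?_⟩
  rintro P _ hP n k hn ⟨y, hy⟩
  refine ⟨?_, ?_, ?_⟩
  · intro t ht
    obtain ⟨a, b, hab⟩ := exists_T t (fst_gen ht)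
    obtain ⟨z, hz, _, hz'⟩ := std_form ⟨0, hn⟩ hP.chain hy (nl_gen hab ht)
    exact ⟨z, hz, nl_trans hab hz'⟩
  · intro a a' b b' hg hg'
    exact ⟨⟨fun h => nielsen_of_ac_ab (ac_of_nielsen h),
      fun h => classification ⟨0, hn⟩ hP.chain hy hg hg' h⟩,
      ⟨fun h => ac_of_nielsen h,
      fun h => classification ⟨0, hn⟩ hP.chain hy hg hg' (nielsen_of_ac_ab h)⟩⟩
  · intro c hc
    exact lift_ab hP.chain hy hc

end Pool.Agent.Results.MP_fabc18_al.SolvableQuotients
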